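import Pool.Agent.H51.EM.Targets

/-!
T_HGT: heights of monomials.
-/

set_option autoImplicit false

namespace Pool.Agent.H20.EM.HGT

open Pool.Agent.H51.EM

theorem one (m : ℤ) (Y : ℚ) (H : ℝ) (hY : 0 < Y) (h1 : (Y.num : ℝ) ≤ H) (h2 : (Y.den : ℝ) ≤ H) :
    ∃ p q : ℕ, 0 < q ∧ Y ^ m = (p : ℚ) / (q : ℚ) ∧
      (p : ℝ) ≤ H ^ m.natAbs ∧ (q : ℝ) ≤ H ^ m.natAbs := by
  have hn : 0 < Y.num := Rat.num_pos.2 hY
  obtain ⟨a, ha⟩ : ∃ a : ℕ, Y.num = a := ⟨Y.num.natAbs, by omega⟩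
  have hd : 0 < Y.den := Y.den_pos
  have ha0 : 0 < a := by omega
  have hYab : Y = (a : ℚ) / (Y.den : ℚ) := by
    have h := Rat.num_div_den Y
    rw [ha] at h
    simpa using h.symm
  have h1' : (a : ℝ) ≤ H := by
    rw [ha] at h1
    simpa using h1
  rcases Int.natAbs_eq m with hm | hm
  · refine ⟨a ^ m.natAbs, Y.den ^ m.natAbs, by positivity, ?_, ?_, ?_⟩
    · conv_lhs => rw [hm, zpow_natCast, hYab]
      push_cast
      rw [div_pow]
    · push_cast
      exact pow_le_pow_left₀ (by positivity) h1' _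
    · push_cast
      exact pow_le_pow_left₀ (by positivity) h2 _
  · refine ⟨Y.den ^ m.natAbs, a ^ m.natAbs, by positivity, ?_, ?_, ?_⟩
    · conv_lhs => rw [hm, zpow_neg, zpow_natCast, hYab]
      push_cast
      rw [div_pow, inv_div]
    · push_cast
      exact pow_le_pow_left₀ (by positivity) h2 _
    · push_cast
      exact pow_le_pow_left₀ (by positivity) h1' _

theorem pf_HGT : T_HGT := by
  intro m n Y Z H hY hZ h1 h2 h3 h4
  obtain ⟨p, q, hq, e, hp1, hq1⟩ := one m Y H hY h1 h2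
  obtain ⟨p', q', hq', e', hp1', hq1'⟩ := one n Z H hZ h3 h4
  have hH : 0 ≤ H := le_trans (by positivity) h2
  refine ⟨p * p', q * q', Nat.mul_pos hq hq', ?_, ?_, ?_⟩
  · rw [e, e']
    push_cast
    rw [div_mul_div_comm]
  · push_cast
    rw [pow_add]
    exact mul_le_mul hp1 hp1' (by positivity) (by positivity)
  · push_cast
    rw [pow_add]
    exact mul_le_mul hq1 hq1' (by positivity) (by positivity)

end Pool.Agent.H20.EM.HGT
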