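import Pool.Agent.H92.EM.TC

/-!
# The norm of the lower Jacobian (board emd, row MPN, MP_75a732_an)
-/

set_option autoImplicit false

namespace Pool.Agent.H20.EM

open MeasureTheory Pool.Agent.H92.EQ Pool.Agent.H92.EM

theorem pf_MPN (hMKB : T_MKB) (hMPM : T_MPM) : T_MPN := by
  intro m k d F hmk hk hd hF
  obtain ⟨hne, hhom, h1, hX, -⟩ := hMKB m k d F hmk hk hd hF
  obtain ⟨P, M, hP, hPM, hPX, hdvd⟩ :=
    hMPM m k d ((k + 1 - m) * (d - 1)) F (lowP m F) (by omega) hF hhom hne hX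
  refine ⟨P, M, hP, hPM, ?_, hPX, hdvd⟩
  by_contra hM
  have hM0 : M = 0 := by omega
  subst hM0
  have htd : P.totalDegree = 0 := hPM.totalDegree hP
  rw [MvPolynomial.totalDegree_eq_zero_iff_eq_C] at htd
  have hc : MvPolynomial.coeff 0 P ≠ 0 := by
    intro h
    rw [h, map_zero] at htd
    exact hP htd
  obtain ⟨q, hq⟩ := hdvd
  rw [htd, MvPolynomial.bind₁_C_right] at hq
  have hq0 : q ≠ 0 := by
    intro h
    rw [h, mul_zero, MvPolynomial.C_eq_zero] at hq
    exact hc hq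
  have h3 := MvPolynomial.totalDegree_mul_of_isDomain hne hq0
  rw [← hq, MvPolynomial.totalDegree_C, hhom.totalDegree hne] at h3
  omega

end Pool.Agent.H20.EM
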